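import Pool.Agent.N264.ATH.Salem

set_option autoImplicit false

open Polynomial Pool.Agent.W628.AbSalem

namespace Pool.Agent.N264.ATH

/-- A Salem number lies in no abelian field: its conjugates are not all real. -/
lemma not_ab {β : ℝ} (h : Salem β) : ¬ Ab (β : ℂ) := by
  classical
  rintro ⟨N, hN, hb⟩
  haveI : NeZero N := ⟨by omega⟩
  have hζ : IsPrimitiveRoot (Complex.exp (2 * Real.pi * Complex.I / N)) N :=
    Complex.isPrimitiveRoot_exp N (NeZero.ne N)
  set ζ := Complex.exp (2 * Real.pi * Complex.I / N) with hζdef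
  rw [cyc_eq hζ] at hb
  set F := IntermediateField.adjoin ℚ {ζ} with hF
  haveI hcyc : IsCyclotomicExtension {N} ℚ F := cyc_inst hζ
  haveI : NumberField F := IsCyclotomicExtension.numberField {N} ℚ F
  haveI hg : IsGalois ℚ F := IsCyclotomicExtension.isGalois {N} ℚ F
  have hcomm : IsMulCommutative (F ≃ₐ[ℚ] F) := IsCyclotomicExtension.isMulCommutative {N} ℚ F
  set b : F := ⟨(β : ℂ), hb⟩ with hbdef
  let c : F ≃ₐ[ℚ] F := AlgEquiv.restrictNormal (Complex.conjAe.restrictScalars ℚ) F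
  have hc : ∀ x : F, ((c x : F) : ℂ) = (starRingEnd ℂ) (x : ℂ) := by
    intro x
    exact AlgEquiv.restrictNormal_commutes (Complex.conjAe.restrictScalars ℚ) F x
  have hcb : c b = b := by
    apply Subtype.ext
    rw [hc]
    exact Complex.conj_ofReal β
  have hreal : ∀ s : F ≃ₐ[ℚ] F, ∃ r : ℝ, ((s b : F) : ℂ) = r := by
    intro s
    rw [← Complex.conj_eq_iff_real, ← hc]
    have h1 : c * s = s * c := hcomm.is_comm.comm c s
    have h2 : c (s b) = s (c b) := by
      rw [← AlgEquiv.mul_apply, h1, AlgEquiv.mul_apply]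
    rw [h2, hcb]
  obtain ⟨z, hz, hz1⟩ := h.circle
  have hinj : Function.Injective (algebraMap F ℂ) := (algebraMap F ℂ).injective
  have hbint : IsIntegral ℤ b := by
    refine ⟨minpoly ℤ β, minpoly.monic h.int, ?_⟩
    apply hinj
    change algebraMap F ℂ (aeval b (minpoly ℤ β)) = _
    rw [map_zero, ← aeval_algebraMap_apply]
    exact aeval_coe β
  -- the minimal polynomial over `ℚ`
  have e1 : minpoly ℚ b = (minpoly ℤ b).map (algebraMap ℤ ℚ) :=
    minpoly.isIntegrallyClosed_eq_field_fractions' ℚ hbint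
  have e2 : minpoly ℤ b = minpoly ℤ β := by
    rw [← minpoly_coe]
    exact (minpoly.algebraMap_eq hinj b).symm
  have hzr : z ∈ (minpoly ℚ b).rootSet ℂ := by
    rw [mem_rootSet]
    refine ⟨minpoly.ne_zero (hbint.tower_top (A := ℚ)), ?_⟩
    rw [e1, e2, aeval_map_algebraMap]
    exact hz
  rw [← Algebra.IsAlgebraic.range_eval_eq_rootSet_minpoly (F := ℚ) (K := F) ℂ b] at hzr
  obtain ⟨ψ, hψ⟩ := hzr
  have hψ' : ψ b = z := hψ
  have h3 : ((ψ.restrictNormal F b : F) : ℂ) = z := by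
    rw [← hψ']
    exact AlgHom.restrictNormal_commutes ψ F b
  have h4 : minpoly ℚ (ψ.restrictNormal F b) = minpoly ℚ b :=
    minpoly.algHom_eq (ψ.restrictNormal F) (ψ.restrictNormal F).injective b
  obtain ⟨s, hs⟩ := isConjRoot_iff_exists_algEquiv.mp
    (show IsConjRoot ℚ (ψ.restrictNormal F b) b from h4)
  obtain ⟨r, hr⟩ := hreal s
  rw [hs, h3] at hr
  rw [hr, Complex.norm_real, Real.norm_eq_abs] at hz1
  have h5 : s b = 1 ∨ s b = -1 := by
    rcases (abs_eq (by norm_num : (0 : ℝ) ≤ 1)).mp hz1 with h6 | h6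
    · left
      apply Subtype.ext
      rw [hs, h3, hr, h6]
      simp
    · right
      apply Subtype.ext
      rw [hs, h3, hr, h6]
      simp
  have h6 : b = 1 ∨ b = -1 := by
    rcases h5 with h6 | h6
    · left
      apply s.injective
      rw [h6, map_one]
    · right
      apply s.injective
      rw [h6, map_neg, map_one]
  have h7 := h.gt
  rcases h6 with h8 | h8
  · have h9 : (β : ℂ) = 1 := congrArg (fun x : F => (x : ℂ)) h8
    have h10 : β = 1 := by exact_mod_cast h9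
    linarith
  · have h9 : (β : ℂ) = -1 := by
      have := congrArg (fun x : F => (x : ℂ)) h8
      simpa using this
    have h10 : β = -1 := by exact_mod_cast h9
    linarith

theorem salem_bound {β : ℝ} (h : Salem β) (hex : Ab ((β + β⁻¹ : ℝ) : ℂ)) :
    (5 / 4 : ℝ) ^ (minpoly ℤ β).natDegree ≤ β ^ 20 := by
  have hint : IsIntegral ℤ (β : ℂ) := ⟨minpoly ℤ β, minpoly.monic h.int, aeval_coe β⟩
  have h1 := bound hint (by push_cast at hex; exact hex) (not_ab h)
  rwa [M_eq h, minpoly_coe] at h1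

theorem salem_finite (X : ℝ) :
    {β : ℝ | Salem β ∧ Ab ((β + β⁻¹ : ℝ) : ℂ) ∧ β ≤ X}.Finite := by
  by_cases hX : 1 < X
  swap
  · refine Set.Finite.subset Set.finite_empty ?_
    rintro β ⟨h1, -, h2⟩
    exact absurd (lt_of_lt_of_le h1.gt h2) hX
  obtain ⟨n, hn⟩ := pow_unbounded_of_one_lt (X ^ 20) (by norm_num : (1 : ℝ) < 5 / 4)
  have hX0 : 0 ≤ X := by linarith
  have hfin := Polynomial.finite_mahlerMeasure_le n ⟨X, hX0⟩
  refine (hfin.biUnion (fun p _ => (p.rootSet_finite ℝ))).subset ?_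
  rintro β ⟨h1, h2, h3⟩
  have h4 := salem_bound h1 h2
  have h5 : β ^ 20 ≤ X ^ 20 := pow_le_pow_left₀ (by linarith [h1.gt]) h3 20
  have h6 : (minpoly ℤ β).natDegree < n := by
    by_contra hcon
    push Not at hcon
    have h7 : (5 / 4 : ℝ) ^ n ≤ (5 / 4 : ℝ) ^ (minpoly ℤ β).natDegree :=
      pow_le_pow_right₀ (by norm_num) hcon
    linarith
  rw [Set.mem_iUnion₂]
  refine ⟨minpoly ℤ β, ⟨h6.le, ?_⟩, ?_⟩
  · have h7 := M_eq h1
    unfold M at h7
    rw [minpoly_coe] at h7
    rw [h7]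
    exact h3
  · rw [mem_rootSet]
    exact ⟨(minpoly.monic h1.int).ne_zero, minpoly.aeval ℤ β⟩

end Pool.Agent.N264.ATH
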