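import Mathlib
import Pool.Agent.W628.AbSalem.Core2
import Pool.Agent.W628.AbSalem.Conj2
import Pool.Agent.W628.AbSalem.Final

/-!
# Heights of numbers `α` with `α + 1/α` abelian; Salem numbers with abelian trace field

Explicit lower bounds, growing exponentially with the degree, for the Mahler measure of an algebraic
integer `α` of degree two over the maximal abelian extension of `ℚ` such that `α + 1/α` is abelian;
Salem numbers with abelian trace field form a closed discrete set.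
-/

set_option autoImplicit false

open Polynomial Pool.Agent.W628.AbSalem

namespace Pool.Agent.N264.ATH

/-- the Mahler measure of an algebraic integer -/
noncomputable def M (α : ℂ) : ℝ := ((minpoly ℤ α).map (Int.castRingHom ℂ)).mahlerMeasure

/-- `z` lies in a cyclotomic field (equivalently, in an abelian extension of `ℚ`) -/
def Ab (z : ℂ) : Prop := ∃ N : ℕ, 0 < N ∧ z ∈ IntermediateField.adjoin ℚ {w : ℂ | w ^ N = 1}

lemma one_le_M {α : ℂ} (hα : IsIntegral ℤ α) : 1 ≤ M α := by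
  have hmon : (minpoly ℤ α).Monic := minpoly.monic hα
  have h1 : ((minpoly ℤ α).map (Int.castRingHom ℂ)).leadingCoeff = 1 := (hmon.map _).leadingCoeff
  unfold M
  rw [mahlerMeasure_eq_leadingCoeff_mul_prod_roots, h1, norm_one, one_mul]
  exact prod_one_le _

theorem main {α : ℂ} (hαi : IsIntegral ℤ α) (hex : Ab (α + α⁻¹)) (hout0 : ¬ Ab α) :
    (5 : ℝ) ^ (minpoly ℚ (α + α⁻¹)).natDegree ≤
      4 ^ (minpoly ℚ (α + α⁻¹)).natDegree * Wt (M α) ^ 2 := by
  classical
  have hout : ∀ N : ℕ, 0 < N → α ∉ IntermediateField.adjoin ℚ {z : ℂ | z ^ N = 1} :=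
    fun N hN h => hout0 ⟨N, hN, h⟩
  set f := minpoly ℤ α with hf
  have hmon : f.Monic := minpoly.monic hαi
  have hf0 : f ≠ 0 := hmon.ne_zero
  have hα : aeval α f = 0 := minpoly.aeval ℤ α
  have hα0 : α ≠ 0 := by
    rintro rfl
    exact hout 1 one_pos (zero_mem _)
  set p := f.map (Int.castRingHom ℂ) with hp
  have hinjZ : Function.Injective (Int.castRingHom ℂ) := RingHom.injective_int _
  have hp0 : p ≠ 0 := (Polynomial.map_ne_zero_iff hinjZ).mpr hf0
  have hlc : p.leadingCoeff = 1 := (hmon.map _).leadingCoeff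
  have hlc1 : 1 ≤ ‖p.leadingCoeff‖ := by rw [hlc, norm_one]
  have hint : ∀ z : ℂ, aeval z f = 0 → IsIntegral ℤ z := fun z hz => ⟨f, hmon, hz⟩
  obtain ⟨hN, hmem⟩ := Nat.find_spec hex
  have hmin := fun m (h : m < Nat.find hex) => Nat.find_min hex h
  set N := Nat.find hex with hNdef
  haveI : NeZero N := ⟨by omega⟩
  have hζ : IsPrimitiveRoot (Complex.exp (2 * Real.pi * Complex.I / N)) N :=
    Complex.isPrimitiveRoot_exp N (NeZero.ne N)
  set ζ := Complex.exp (2 * Real.pi * Complex.I / N) with hζdef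
  rw [cyc_eq hζ] at hmem
  have hαF : α ∉ IntermediateField.adjoin ℚ {ζ} := by
    rw [← cyc_eq hζ]
    exact hout N hN
  set F := IntermediateField.adjoin ℚ {ζ} with hF
  haveI hcyc : IsCyclotomicExtension {N} ℚ F := cyc_inst hζ
  haveI : NumberField F := IsCyclotomicExtension.numberField {N} ℚ F
  have hinv := inv_root2 hα0 F hmem hαF f hα
  have hinj : Function.Injective (algebraMap F ℂ) := (algebraMap F ℂ).injective
  have hτC : IsIntegral ℤ (α + α⁻¹) := (hint α hα).add (hint _ hinv)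
  set t : F := ⟨α + α⁻¹, hmem⟩ with ht
  have htint : IsIntegral ℤ t := (isIntegral_algebraMap_iff hinj).mp hτC
  have hmt : minpoly ℚ t = minpoly ℚ (α + α⁻¹) := (minpoly.algebraMap_eq hinj t).symm
  have hζF : IsPrimitiveRoot (⟨ζ, IntermediateField.mem_adjoin_simple_self ℚ ζ⟩ : F) N := by
    apply IsPrimitiveRoot.of_map_of_injective (f := algebraMap F ℂ) _ hinj
    exact hζ
  have hexZ : ∀ y : F, ∃ z : ℂ, (∃ s : F ≃ₐ[ℚ] F, y = s t) →
      (1 ≤ ‖z‖ ∧ z + z⁻¹ = (y : ℂ) ∧ aeval z f = 0) := by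
    intro y
    by_cases hy : ∃ s : F ≃ₐ[ℚ] F, y = s t
    · obtain ⟨s, rfl⟩ := hy
      have h1 : minpoly ℚ ((s t : F) : ℂ) = minpoly ℚ (α + α⁻¹) := by
        rw [← hmt, ← minpoly.algEquiv_eq s t]
        exact minpoly.algebraMap_eq hinj (s t)
      obtain ⟨z, hz1, hz0, hz2, hz3⟩ := conj_lift2 (hint α hα) hα0 h1
      by_cases hn : 1 ≤ ‖z‖
      · exact ⟨z, fun _ => ⟨hn, hz1, hz2 f hα⟩⟩
      · refine ⟨z⁻¹, fun _ => ⟨?_, ?_, hz3 f hinv⟩⟩
        · push Not at hn
          rw [norm_inv]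
          exact (one_le_inv₀ (norm_pos_iff.mpr hz0)).mpr hn.le
        · rw [inv_inv, add_comm]
          exact hz1
    · exact ⟨0, fun h => absurd h hy⟩
  choose Z hZ using hexZ
  have hZs : ∀ s : F ≃ₐ[ℚ] F, 1 ≤ ‖Z (s t)‖ ∧ Z (s t) + (Z (s t))⁻¹ = F.val (s t) :=
    fun s => ⟨(hZ (s t) ⟨s, rfl⟩).1, (hZ (s t) ⟨s, rfl⟩).2.1⟩
  have hZt : 1 ≤ ‖Z t‖ ∧ Z t + (Z t)⁻¹ = α + α⁻¹ ∧ aeval (Z t) f = 0 := hZ t ⟨1, rfl⟩
  have hZt0 : Z t ≠ 0 := by
    intro h
    have := hZt.1
    rw [h, norm_zero] at this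
    linarith
  have hpm := pm_of_add_inv hZt0 hα0 hZt.2.1
  have hroot : ∀ n : ℕ, 0 < n → (Z t) ^ n ≠ 1 := by
    intro n hn h
    apply hout n hn
    apply IntermediateField.subset_adjoin
    change α ^ n = 1
    rcases hpm with h1 | h1
    · rw [← h1]
      exact h
    · rw [h1, inv_pow, inv_eq_one] at h
      exact h
  have hout' : Z t ∉ Set.range F.val := by
    rintro ⟨x, hx⟩
    have h2 : Z t ∈ F := by
      rw [← hx]
      exact x.2
    rcases hpm with h1 | h1
    · exact hαF (h1 ▸ h2)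
    · apply hαF
      rw [h1] at h2
      have := inv_mem h2
      rwa [inv_inv] at this
  set M := p.mahlerMeasure with hMdef
  have hM : ∀ S : Finset F, (∀ y ∈ S, ∃ s : F ≃ₐ[ℚ] F, y = s t) → ∏ y ∈ S, ‖Z y‖ ≤ M := by
    intro S hS
    have h1 : ∏ z ∈ S.image Z, ‖z‖ = ∏ y ∈ S, ‖Z y‖ := by
      apply Finset.prod_image
      intro a ha b hb hab
      apply Subtype.ext
      rw [← (hZ a (hS a ha)).2.1, ← (hZ b (hS b hb)).2.1, hab]
    rw [← h1]
    apply prod_le_mahler hlc1 hp0
    intro z hz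
    obtain ⟨y, hy, rfl⟩ := Finset.mem_image.mp hz
    have h2 := (hZ y (hS y hy)).2.2
    rw [IsRoot.def, hp, eval_map]
    exact h2
  have hmin5 : 5 ∣ N → t ∉ IntermediateField.adjoin ℚ
      {(⟨ζ, IntermediateField.mem_adjoin_simple_self ℚ ζ⟩ : F) ^ 5} := by
    rintro ⟨m, hm⟩ hcon
    have hm0 : 0 < m := by omega
    refine hmin m (by omega) ⟨hm0, ?_⟩
    have key : ∀ x ∈ IntermediateField.adjoin ℚ
        {(⟨ζ, IntermediateField.mem_adjoin_simple_self ℚ ζ⟩ : F) ^ 5},
        (x : ℂ) ∈ IntermediateField.adjoin ℚ {z : ℂ | z ^ m = 1} := by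
      intro x hx
      induction hx using IntermediateField.adjoin_induction with
      | mem x hx =>
        rw [Set.mem_singleton_iff] at hx
        rw [hx]
        apply IntermediateField.subset_adjoin
        change (ζ ^ 5) ^ m = 1
        rw [← pow_mul, ← hm]
        exact hζ.pow_eq_one
      | algebraMap x =>
        rw [eq_ratCast]
        push_cast
        exact SubfieldClass.ratCast_mem _ x
      | add x y _ _ hx hy => exact add_mem hx hy
      | inv x _ hx => exact inv_mem hx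
      | mul x y _ _ hx hy => exact mul_mem hx hy
    exact key t hcon
  have hcore := core2 hζF F.val htint hmin5 Z hZs hout' hroot hM
  rw [hmt] at hcore
  exact hcore

end Pool.Agent.N264.ATH
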