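import Pool.Agent.N264.ATH.Gen

set_option autoImplicit false

open Polynomial Pool.Agent.W628.AbSalem

namespace Pool.Agent.N264.ATH

lemma Wt_le_pow {R : ℝ} (hR : 1 ≤ R) : Wt R ≤ R ^ 5 := by
  have hx : 1 ≤ R ^ 5 := one_le_pow₀ hR
  unfold Wt
  rw [div_le_iff₀ (by positivity)]
  nlinarith

/-- the degree of `α` is at most twice the degree of `α + 1/α` -/
lemma deg_le {α : ℂ} (hα : IsIntegral ℤ α) (hα0 : α ≠ 0) (hτ : IsIntegral ℚ (α + α⁻¹)) :
    (minpoly ℤ α).natDegree ≤ 2 * (minpoly ℚ (α + α⁻¹)).natDegree := by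
  classical
  set g := minpoly ℚ (α + α⁻¹) with hg
  set d := g.natDegree with hd
  have hgm : g.Monic := minpoly.monic hτ
  have h1 : minpoly ℚ α = (minpoly ℤ α).map (algebraMap ℤ ℚ) :=
    minpoly.isIntegrallyClosed_eq_field_fractions' ℚ hα
  have h2 : (minpoly ℤ α).natDegree = (minpoly ℚ α).natDegree := by
    rw [h1, (minpoly.monic hα).natDegree_map]
  rw [h2]
  set G : ℚ[X] := ∑ i ∈ Finset.range (d + 1), C (g.coeff i) * ((X ^ 2 + 1) ^ i * X ^ (d - i))
    with hG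
  have hq : ∀ i, ((X ^ 2 + 1 : ℚ[X]) ^ i).natDegree = 2 * i := by
    intro i
    have h3 : (X ^ 2 + 1 : ℚ[X]).natDegree = 2 := by compute_degree!
    rw [natDegree_pow, h3, mul_comm]
  have hqm : ∀ i, ((X ^ 2 + 1 : ℚ[X]) ^ i).Monic := by
    intro i
    have h3 : (X ^ 2 + 1 : ℚ[X]).Monic := by monicity!
    exact h3.pow i
  have hterm : ∀ i, i ≤ d → ((X ^ 2 + 1 : ℚ[X]) ^ i * X ^ (d - i)).natDegree = d + i := by
    intro i hi
    rw [(hqm i).natDegree_mul (monic_X_pow _), hq, natDegree_X_pow]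
    omega
  have hcoef : G.coeff (2 * d) = 1 := by
    rw [hG, finsetSum_coeff, Finset.sum_range_succ]
    have h3 : ∑ i ∈ Finset.range d,
        (C (g.coeff i) * ((X ^ 2 + 1 : ℚ[X]) ^ i * X ^ (d - i))).coeff (2 * d) = 0 := by
      apply Finset.sum_eq_zero
      intro i hi
      rw [Finset.mem_range] at hi
      have h9 : ((X ^ 2 + 1 : ℚ[X]) ^ i * X ^ (d - i)).coeff (2 * d) = 0 := by
        apply coeff_eq_zero_of_natDegree_lt
        rw [hterm i hi.le]
        omega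
      rw [coeff_C_mul, h9, mul_zero]
    rw [h3, zero_add, coeff_C_mul, Nat.sub_self, pow_zero, mul_one]
    have h4 : g.coeff d = 1 := hgm.coeff_natDegree
    have h5 : ((X ^ 2 + 1 : ℚ[X]) ^ d).coeff (2 * d) = 1 := by
      have := (hqm d).coeff_natDegree
      rwa [hq] at this
    rw [h4, h5, one_mul]
  have hG0 : G ≠ 0 := by
    intro h
    rw [h, coeff_zero] at hcoef
    exact zero_ne_one hcoef
  have hGd : G.natDegree ≤ 2 * d := by
    rw [hG]
    apply natDegree_sum_le_of_forall_le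
    intro i hi
    rw [Finset.mem_range] at hi
    refine (natDegree_C_mul_le _ _).trans ?_
    rw [hterm i (by omega)]
    omega
  have hGα : aeval α G = 0 := by
    have h3 : aeval α G = α ^ d * aeval (α + α⁻¹) g := by
      rw [aeval_eq_sum_range (p := g), Finset.mul_sum, hG, map_sum]
      apply Finset.sum_congr rfl
      intro i hi
      rw [Finset.mem_range] at hi
      have h4 : α ^ 2 + 1 = α * (α + α⁻¹) := by field_simp
      simp only [map_mul, map_pow, map_add, aeval_X, aeval_C, map_one]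
      rw [h4, mul_pow, Algebra.smul_def]
      have h5 : α ^ d = α ^ i * α ^ (d - i) := by rw [← pow_add]; congr 1; omega
      rw [h5]
      ring
    rw [h3, minpoly.aeval, mul_zero]
  exact (natDegree_le_of_dvd (minpoly.dvd ℚ α hGα) hG0).trans hGd

/-- **Heights.** -/
theorem bound {α : ℂ} (hα : IsIntegral ℤ α) (hex : Ab (α + α⁻¹)) (hout : ¬ Ab α) :
    (5 / 4 : ℝ) ^ (minpoly ℤ α).natDegree ≤ (M α) ^ 20 := by
  have hα0 : α ≠ 0 := by
    rintro rfl
    exact hout ⟨1, one_pos, zero_mem _⟩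
  obtain ⟨N, hN, hmem⟩ := hex
  have hτ : IsIntegral ℚ (α + α⁻¹) := by
    have h1 : IsIntegral ℚ α := hα.tower_top
    exact h1.add h1.inv
  have h1 := main hα ⟨N, hN, hmem⟩ hout
  have h2 := deg_le hα hα0 hτ
  set d := (minpoly ℚ (α + α⁻¹)).natDegree with hd
  have hM := one_le_M hα
  have h3 : Wt (M α) ^ 2 ≤ (M α) ^ 10 := by
    have h4 := Wt_le_pow hM
    have h5 := one_le_Wt hM
    calc Wt (M α) ^ 2 ≤ ((M α) ^ 5) ^ 2 := pow_le_pow_left₀ (by linarith) h4 2
      _ = (M α) ^ 10 := by ring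
  have h4 : (5 / 4 : ℝ) ^ d ≤ (M α) ^ 10 := by
    rw [div_pow, div_le_iff₀ (by positivity)]
    calc (5 : ℝ) ^ d ≤ 4 ^ d * Wt (M α) ^ 2 := h1
      _ ≤ 4 ^ d * (M α) ^ 10 := by gcongr
      _ = (M α) ^ 10 * 4 ^ d := by ring
  calc (5 / 4 : ℝ) ^ (minpoly ℤ α).natDegree ≤ (5 / 4 : ℝ) ^ (2 * d) :=
        pow_le_pow_right₀ (by norm_num) h2
    _ = ((5 / 4 : ℝ) ^ d) ^ 2 := by rw [← pow_mul, mul_comm]
    _ ≤ ((M α) ^ 10) ^ 2 := by gcongr
    _ = (M α) ^ 20 := by ring

/-- Salem numbers: real algebraic integers `β > 1` all of whose other conjugates lie in the closed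
unit disc, at least one of them on the unit circle. -/
structure Salem (β : ℝ) : Prop where
  gt : 1 < β
  int : IsIntegral ℤ β
  disc : ∀ z : ℂ, aeval z (minpoly ℤ β) = 0 → z ≠ (β : ℂ) → ‖z‖ ≤ 1
  circle : ∃ z : ℂ, aeval z (minpoly ℤ β) = 0 ∧ ‖z‖ = 1

lemma minpoly_coe (β : ℝ) : minpoly ℤ (β : ℂ) = minpoly ℤ β :=
  minpoly.algebraMap_eq (algebraMap ℝ ℂ).injective β

lemma aeval_coe (β : ℝ) : aeval (β : ℂ) (minpoly ℤ β) = 0 := by
  rw [← minpoly_coe]
  exact minpoly.aeval ℤ (β : ℂ)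

lemma M_eq {β : ℝ} (h : Salem β) : M (β : ℂ) = β := by
  classical
  have hint : IsIntegral ℤ (β : ℂ) := ⟨minpoly ℤ β, minpoly.monic h.int, aeval_coe β⟩
  set p := (minpoly ℤ (β : ℂ)).map (Int.castRingHom ℂ) with hp
  have hmon : (minpoly ℤ (β : ℂ)).Monic := minpoly.monic hint
  have hpm : p.Monic := hmon.map _
  have hnd : p.roots.Nodup := by
    have h1 : minpoly ℚ (β : ℂ) = (minpoly ℤ (β : ℂ)).map (algebraMap ℤ ℚ) :=
      minpoly.isIntegrallyClosed_eq_field_fractions' ℚ hint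
    have h2 : p = (minpoly ℚ (β : ℂ)).map (algebraMap ℚ ℂ) := by
      rw [h1, Polynomial.map_map, hp]
      congr 1
    rw [h2]
    apply nodup_roots
    exact (minpoly.irreducible (hint.tower_top (A := ℚ))).separable.map
  have hmem : (β : ℂ) ∈ p.roots := by
    rw [mem_roots hpm.ne_zero, IsRoot.def, hp, eval_map]
    exact minpoly.aeval ℤ (β : ℂ)
  unfold M
  rw [← hp, mahlerMeasure_eq_leadingCoeff_mul_prod_roots, hpm.leadingCoeff, norm_one, one_mul,
    ← Multiset.cons_erase hmem, Multiset.map_cons, Multiset.prod_cons]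
  have h3 : ((p.roots.erase (β : ℂ)).map (fun a => max 1 ‖a‖)).prod = 1 := by
    apply Multiset.prod_eq_one
    intro r hr
    rw [Multiset.mem_map] at hr
    obtain ⟨z, hz, rfl⟩ := hr
    have hz1 := (Multiset.Nodup.mem_erase_iff hnd).mp hz
    apply max_eq_left
    apply h.disc z _ hz1.1
    rw [← minpoly_coe]
    have h4 := hz1.2
    rw [mem_roots hpm.ne_zero, IsRoot.def, hp, eval_map] at h4
    exact h4
  rw [h3, mul_one, Complex.norm_real, Real.norm_eq_abs, abs_of_pos (by linarith [h.gt])]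
  exact max_eq_right h.gt.le

end Pool.Agent.N264.ATH
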