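import Pool.Agent.N264.ATH.Fin

set_option autoImplicit false

open Polynomial Pool.Agent.W628.AbSalem

namespace Pool.Agent.N264.ATH

theorem salem_small {β : ℝ} (h : Salem β) (hex : Ab ((β + β⁻¹ : ℝ) : ℂ)) (hs : β ^ 2 < 2) :
    (minpoly ℤ β).natDegree ≤ 12 := by
  have hint : IsIntegral ℤ (β : ℂ) := ⟨minpoly ℤ β, minpoly.monic h.int, aeval_coe β⟩
  have hex' : Ab ((β : ℂ) + (β : ℂ)⁻¹) := by push_cast at hex; exact hex
  have h1 := main hint hex' (not_ab h)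
  have hβ0 : (β : ℂ) ≠ 0 := by
    have := h.gt
    exact_mod_cast (by linarith : β ≠ 0)
  have hτ : IsIntegral ℚ ((β : ℂ) + (β : ℂ)⁻¹) := by
    have h1 : IsIntegral ℚ (β : ℂ) := hint.tower_top
    exact h1.add h1.inv
  have h2 := deg_le hint hβ0 hτ
  rw [minpoly_coe] at h2
  rw [M_eq h] at h1
  set d := (minpoly ℚ ((β : ℂ) + (β : ℂ)⁻¹)).natDegree with hd
  by_contra hcon
  push Not at hcon
  have h3 : 7 ≤ d := by omega
  have h4 : β ≤ 1.4143 := by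
    by_contra h5
    push Not at h5
    nlinarith
  have h5 : Wt β ≤ 1.96 := by
    refine (Wt_mono h.gt.le h4).trans ?_
    unfold Wt
    norm_num
  have h6 := one_le_Wt h.gt.le
  have h7 : Wt β ^ 2 ≤ 1.96 ^ 2 := pow_le_pow_left₀ (by linarith) h5 2
  have h8 : (5 / 4 : ℝ) ^ d ≤ 1.96 ^ 2 := by
    rw [div_pow, div_le_iff₀ (by positivity)]
    calc (5 : ℝ) ^ d ≤ 4 ^ d * Wt β ^ 2 := h1
      _ ≤ 4 ^ d * 1.96 ^ 2 := by gcongr
      _ = 1.96 ^ 2 * 4 ^ d := by ring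
  have h9 : (5 / 4 : ℝ) ^ 7 ≤ (5 / 4 : ℝ) ^ d := pow_le_pow_right₀ (by norm_num) h3
  norm_num at h8 h9
  linarith

end Pool.Agent.N264.ATH
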